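import Pool.Agent.Q56.FH.Final

/-!
# The standard conjecture of Hodge type for all products of varieties of bounded complexity

Let `P i`, `i ∈ ι`, be an arbitrary (possibly infinite) family of smooth projective varieties over
the finite field with `q = p ^ a` elements, with divisors which satisfy the hard Lefschetz theorem,
of total Betti number at most `b` and of dimension at most `d` (for example all polarized abelian
varieties of dimension at most `d`, or also all curves of genus at most `g` or all K3 surfaces over
this field). There is an
explicit number `N`, depending on nothing but `q, b, d`, such that the following are equivalent: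

1. the strong Tate conjecture (the generalised eigenspace of the Frobenius endomorphism in
   `H^(2 j)` for the eigenvalue `q ^ j` is spanned by classes of cycles, for all `j`) and the
   standard conjecture of Hodge type hold for all products of at most `N` members of the family;
2. the strong Tate conjecture and the standard conjecture of Hodge type hold for all products of
   members of the family, with arbitrarily many and possibly all different factors, and the standard
   conjectures of Hodge type and `D` (homological and numerical equivalence coincide) hold for all
   polarized varieties which are covered by such products.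

The bound is `N = exactBound L d = (2 L!)! (4 (d + 1) L!) ^ (2 ^ L)` with
`L = letterBound q b d = (2 d + 1) (2 ^ (b + 1) q ^ (d b) + 1) ^ (b + 1) b`. No hypothesis is made on
the relations between the eigenvalues of Frobenius.

`nest ops n (fun i => P (c i))` is the product of the `n + 1` members `P (c 0), …, P (c n)`. Here `W`
is a Weil cohomology theory with coefficients in an algebraically closed field (for example `l`-adic
cohomology with coefficients in an algebraic closure of `ℚ_l`), `F` is the system of the Frobenius
endomorphisms, and `HasFrobPolys` says that the characteristic polynomials of the Frobenius
endomorphism have integral coefficients (Deligne), satisfy the Riemann hypothesis (Deligne), and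
that the slopes times their multiplicities are integers (Katz-Messing, Dieudonne-Manin), all of
which are theorems for smooth projective varieties over finite fields. `Covers W Z Y` says that
there is a morphism `Z → Y` of positive degree between varieties of the same dimension such that the
class of the divisor of `Z` is the pull-back of the class of the divisor of `Y`.
-/

open CategoryTheory AlgebraicGeometry

universe u v w

namespace Pool.Agent.Results.MP_c0b458_ag.BoundedlyManyFactors

open Pool.Agent.H914 Pool.Agent.H914.VarClass Pool.Agent.H914.VarClass.Obj
  Pool.Agent.H281R3.HT Pool.Agent.W552 Pool.Agent.Q56.FE Pool.Agent.Q56.FR Pool.Agent.Q56.FH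

/-- **Boundedly many factors decide the strong Tate conjecture together with the standard conjecture
of Hodge type for all products of varieties with bounded Betti numbers and bounded dimension over a
finite field.** -/
theorem result {k : Type u} [Field k] {𝒱 : VarClass k} {ops : CycleOps 𝒱}
    (W : WeilCohomology.{u, v} ops) [IsAlgClosed W.K] {p : ℕ} [Fact p.Prime] {a : ℕ} (ha : 0 < a)
    (F : FrobeniusOver W (p ^ a)) (b d : ℕ) {ι : Type w} (P : ι → Polarized 𝒱)
    (hD : ∀ i, (P i).X.IsCyc 1 (P i).D) (hHL : ∀ i, HardLefschetz W (P i).X (P i).D)
    (hP : ∀ i, Module.finrank W.K (W.H (P i).X) ≤ b ∧ (P i).X.dim ≤ d ∧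
      HasFrobPolys F (P i).X) :
    (∀ n < exactBound (letterBound (p ^ a) b d) d, ∀ c : Fin (n + 1) → ι,
        TateHodge F (nest ops n fun i => P (c i))) ↔
      ∀ (n : ℕ) (c : Fin (n + 1) → ι), TateHodge F (nest ops n fun i => P (c i)) ∧
        ∀ Y : Polarized 𝒱, Covers W (nest ops n fun i => P (c i)) Y → Y.X.IsCyc 1 Y.D →
          HodgeType W Y.X Y.D ∧ HomEqNum W Y.X := by
  refine ⟨fun h n c => ?_, fun h n _ c => (h n c).1⟩
  have h1 := class_main' ha hD hHL hP h n c
  exact ⟨h1.1, fun Y hY hYD => covered hD h1 Y hY hYD⟩

end Pool.Agent.Results.MP_c0b458_ag.BoundedlyManyFactors
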