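import Mathlib
import Pool.Agent.Q60.D3T.HR
import Pool.Agent.Q60.D3H.FineG

/-!
# The standard conjecture of Hodge type for ordinary abelian varieties with factors of prime dimension
or of generic type

Let `A₀` be an ordinary abelian variety over the field with `p ^ a` elements, isogenous to a product of
abelian varieties `A₀ i` with complex multiplication by CM fields `E i`, `[E i : ℚ] = 2 dim (A₀ i)`,
containing the Frobenius endomorphisms (for a simple ordinary abelian variety `E i` is generated by the
Frobenius endomorphism). The embeddings of `E i` for which the Frobenius endomorphism has slope one form a
CM type, the CM type of the canonical lift. Suppose that each `E i`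

* has degree at most six, or
* has degree twice a prime number, or
* the CM type is nondegenerate and the maximal real subfield `F i` of `E i` has no subfields except `ℚ`
  and itself, or
* the CM type is separated: for two embeddings `φ`, `ψ` of `E i` which are different on `F i` there is an
  automorphism of `ℂ` which is the identity on all conjugates of `F i` and on `φ (E i)`, but not on
  `ψ (E i)` (for `E i = F i (√-α)`: the product of two different conjugates of `α` is not a square in the
  Galois closure of `F i`; this holds if the Galois group of `E i` is as large as possible).

Suppose that two factors have isomorphic CM types if their CM fields have the same Galois closure and one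
of them has degree larger than six, and the corresponding condition for any three factors whose CM
fields have degree four or six. If `E i` has degree larger than six, its CM type is not separated and
`K ⊂ E i` is an imaginary quadratic field, the larger one of the numbers of embeddings of `E i` of slope
one with a given restriction to `K` is in the set `𝒟`, which contains `2`. Let `X` be the canonical lift
of `A₀`. The *generated* classes are the rational classes on `X` which are obtained from the classes of
divisors and Weil classes of imaginary quadratic fields `K` on abelian varieties of the dimensions
`2 m`, `m ∈ 𝒟`, containing an elliptic curve with multiplication by `K` stable under `K`, by linear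
combinations, cup products, pull-backs and push-forwards. For `𝒟 = {2, 3}` they are algebraic by
theorems of Markman, and so are their reductions on `A₀`.

Let `E` be a polarization and `z` a nonzero primitive Tate class of codimension `r` on `A₀` (with
coefficients in a field `K` of characteristic zero which contains `ℚ_ℓ`, over any extension of the finite
field), `dim A₀ = 2 r + m`, whose intersection numbers with the generated classes of complementary degree
are rational. (If the generated classes are algebraic, this is so for each `z` which is the class of an
algebraic cycle with rational coefficients.) Then `(-1) ^ r z · z · E ^ m` is a positive multiple of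
`E ^ (2 r + m)`. For `𝒟 = {2, 3}` this is the standard conjecture of Hodge type for `A₀` and its
powers; numerical and homological equivalence coincide on `A₀`, see
`Pool.Agent.Results.MP_54168f_ag.OrdinaryPrimeDimension`.
-/

namespace Pool.Agent.Results.MP_c0b458_ag.OrdinaryPrimeDimension

open Module Pool.Agent.H204R3.CM Pool.Agent.W547.KB Pool.Agent.W530.NF
open Pool.Agent.W547.LN (IsCanonicalLift IsFrobeniusMap)
open Pool.Agent.W547.LD (IsPolarization)
open Pool.Agent.W547.HR (IsTateOver IsPrimitive IsPositive)
open Pool.Agent.Q60.D3H (GenT)
open Pool.Agent.Q60.D3T (HasRationalNumbers)

/-- The standard conjecture of Hodge type for ordinary abelian varieties. -/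
theorem result (𝒟 : Set ℕ) (hD : 2 ∈ 𝒟) (p : ℕ) [Fact p.Prime] (a : ℕ) (ha : 0 < a)
    (ν : PadicAlgCl p ≃+* ℂ) (X : CMAV) (hX : GenT 𝒟 X) (π : X.H1)
    (hπ : IsCanonicalLift p a ν X π)
    {K V : Type} [Field K] [CharZero K] [AddCommGroup V] [Module K V]
    (C : Comparison X K V) (F : V →ₗ[K] V) (hF : IsFrobeniusMap C π F)
    {E : X.H1 → X.H1 → ℚ} (hE : IsPolarization X E) (r m : ℕ)
    (hrm : 2 * (2 * r + m) = finrank ℚ X.H1) (z : V [⋀^Fin r × Fin 2]→ₗ[K] K) (s : ℕ) (hs : 0 < s)
    (htate : IsTateOver F (p ^ a) s z) (hrat : HasRationalNumbers 𝒟 C z)
    (hprim : IsPrimitive C E m z) (hz : z ≠ 0) : IsPositive C E m z :=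
  Pool.Agent.Q60.D3T.hodgeStandard X (fun f hf => Pool.Agent.Q60.D3H.cmG hD X hX f hf) p a ha ν π hπ
    C F hF hE r m hrm z s hs htate hrat hprim hz

end Pool.Agent.Results.MP_c0b458_ag.OrdinaryPrimeDimension
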