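import Pool.Agent.Q43.HN.Main
import Pool.Agent.Q43.HN.Primes

/-!
# The standard conjecture of Hodge type modulo numerical equivalence for products of elliptic curves
and of simple abelian varieties of different prime dimensions

Let `A` be an abelian variety over an algebraic closure of the field with `p` elements, isogenous to a
product of elliptic curves and of simple abelian varieties `A i` of different prime dimensions; in
dimension two the CM field `E i` should have no imaginary quadratic subfield, and any two of the fields
`E i` in odd prime dimensions which have imaginary quadratic subfields should have the same one (this is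
not needed for cycles of codimension `r` if the sum of the two dimensions is greater than `2 r`). Or let
the multiplicative relations with at most `2 r` terms between the Frobenius eigenvalues be generated, up
to torsion, by relations with at most two terms and one further relation. Let `Y` be isogenous to a
product of powers of the factors of `A` and of a supersingular abelian variety. Then the standard
conjecture of Hodge type modulo numerical equivalence holds for the cycles of codimension `r` on `Y`.

The proof shows that each relation between the Frobenius eigenvalues is a product of relations with at
most two terms and of a relation between norms to one imaginary quadratic field `K`. So each exotic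
class is obtained from classes of divisors and from a class in the Weil motive of `K` on an auxiliary
abelian variety, which has rank two, and for these motives the positivity is a theorem of Ancona. The
classes of `H^{2 r}` are decomposed in lines over a number field, and the sign of the form on each line
is determined by comparison with a polarization of the lifting.
-/

set_option autoImplicit false

namespace Pool.Agent.Results.MP_c0b458_ag.PrimeDimensions

open NumberField Pool.Agent.H204R3.CM Pool.Agent.W547.KB Pool.Agent.W547.LD Pool.Agent.W547.HR
  Pool.Agent.W495.TA Pool.Agent.W495.TC Pool.Agent.TH117.PO Pool.Agent.TH117.BL Pool.Agent.Q43.HN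
  Module

/-- **The standard conjecture of Hodge type modulo numerical equivalence.** -/
theorem result {p : ℕ} [Fact p.Prime] {ν : PadicAlgCl p ≃+* ℂ} {Ω : Type} [Field Ω] [CharZero Ω]
    [IsAlgClosed Ω] {C : (Y : RedAV p ν) → (κ : Type) → ((TM Ω Y) [⋀^κ]→ₗ[Ω] Ω) → Prop}
    (hC : IsCycleSystem Ω C) (hR : IsRosatiPositive Ω C) (hW : IsWeilPositive Ω C)
    (hT : AreTate Ω C) {Z Y : RedAV p ν} {r : ℕ}
    (hZ : IsPrimeProduct Z r ∨
      ((∀ i, IsSupersingular Z i ∨ IsCommutative Z i) ∧ IsDependent Z r))
    (hY : IsPowersTimesSupersingular Z Y) {α : Y.X.H1} (hα : IsPolar Y.X α) {m : ℕ}
    (hrm : 2 * (2 * r + m) = finrank ℚ Y.X.H1) {z : (TM Ω Y) [⋀^Fin r × Fin 2]→ₗ[Ω] Ω}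
    (hz : C Y _ z) (hnum : ¬ IsNumTrivial Ω C z) (hprim : IsPrim α m z) : IsPosClass α m z := by
  have hctl : IsControlled Z r := by
    rcases hZ with h | ⟨h, h'⟩
    · exact controlled_of_primes Z h
    · exact controlled_of_dependent Z h h'
  exact main hC hR hW hT hctl hY hα hrm hz hnum hprim

end Pool.Agent.Results.MP_c0b458_ag.PrimeDimensions
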