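import Mathlib
import Pool.Agent.Q29.TE.Law3
import Pool.Agent.Q29.BX.Rows
import Pool.Agent.Q29.NH.Num

/-!
# The numerical standard conjecture of Hodge type for all abelian varieties in characteristic `p`
which specialize to abelian varieties with almost all slope types of typical CM fields

Let `K i` (`i` in a finite set) be CM fields of degree `2 g i` which are pairwise independent: for
`i ≠ k` and all complex embeddings `φ` of `K i` and `ψ` of `K k` some automorphism of `ℂ` is the
identity on `φ (K i)` and the complex conjugation on `ψ (K k)` (this is no condition if there is
only one field).

We fix an isomorphism `ν` of the algebraic closure of `ℚ_p` with `ℂ`; it defines a `p`-adic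
valuation of `ℂ`, with the value one at `p`. Let `M i` be a function with integral values on the
complex embeddings of `K i`, invariant under complex conjugation (the weights). A CM type `Φ i` of
`K i` (a choice of one element out of each complex conjugate pair of embeddings), `M i` and a real
number `κ ≠ 0` prescribe the slopes `(a + κ M) / 2` (at the embeddings in `Φ i`) and `(a - κ M) / 2`
(outside of `Φ i`) of a Weil number for `p ^ a` in `K i`. If `p` splits completely in `K i` then, by
Honda and Tate, all rational slopes between `0` and `a` that are symmetric in this way occur for
abelian varieties over finite fields. The case `M = 1`, `κ = a` is the ordinary case.

**The property of the slope types** (`NumPositiveForTypes`). Over an algebraic closure of the field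
with `p` elements each abelian variety is isogenous to the reduction of an abelian variety of CM
type (Honda, Tate). So an abelian variety `Y` over it is modelled by `RedAV` (starting files): a
finite product of CM types `(E i, Φ i)` with Weil numbers `π i ∈ E i` that satisfy the formula of
Shimura and Taniyama; its cohomology of degree `n`, with coefficients in an algebraically closed
field `Ω`, consists of the alternating `n`-forms on `Ω ⊗ H_1`. Let `𝒞` (`OfTypes`) be the class of
those `Y` each of whose factors is supersingular or has a Frobenius endomorphism some power of which
is, for some `i`, a Weil number in `K i` with the slopes prescribed by `Φ i`, `M i` and some real
number `κ i ≠ 0` (which depends only on `Y` and `i`). If `M = 1` and `κ = a` the class contains all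
ordinary abelian varieties with the CM types `Φ i`.

Let `X` be an abelian variety of dimension `g` over any algebraically closed field of characteristic
`p`, with a polarization `L` (`D` in the Lean statement), that specializes, with its polarization,
to some `Y` in `𝒞` with a polarization `α` compatible with the complex multiplications
(`Specializes`, starting files: the ring `A` of algebraic cycles modulo `ℓ`-adic homological
equivalence on `X` is mapped injectively into the one of `Y`). By theorems of Honda, Tate and Zink
each polarized abelian variety over an algebraic closure of a finite field is isogenous to one with
such an `α`, and each abelian variety in characteristic `p` specializes to one over an algebraic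
closure of a finite field. Then **the form `(-1) ^ n α · β · L ^ (g - 2 n)` is positive definite on
the primitive classes of codimension `n`, modulo numerical equivalence** (`NumHodgePositive`: if `a`
is not numerically trivial and `a · L ^ (g - 2 n + 1)` is numerically trivial, then `(-1) ^ n a · a ·
L ^ (g - 2 n) > 0`), for all `n ≤ g / 2`, and **numerical and homological equivalence coincide on
`X`** (`NumEqHom`), for every `ℓ`. So for the conjecture of the question for an abelian variety over
a field of positive characteristic, for instance the generic member of a family, it suffices that
one special fibre over a finite field has almost any slope type of almost any CM field. The
conjecture `A` of Lefschetz type (`LefschetzA`) is a theorem of Lieberman and Kleiman for abelian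
varieties (in the question, too, it is recorded as known). The spaces `C Y κ` of the classes of
algebraic cycles on the abelian varieties `Y` are data with the usual properties (`IsCycleSystem`),
the positivity of the Rosati involution (Weil) and the fact that algebraic classes are Tate classes
are hypotheses (`IsRosatiPositive`, `AreTate`). No conjecture is assumed.

**The theorem.** Let `E` be a CM field of degree `2 g`, and let all values of the weights `M` divide
the number `n`.

* (`MostTypes`) For all `n` and `ε > 0` there is a number `u` such that the property `Q` is false
  for at most **a proportion of `max (ε, 0.68 q / g)` of the `2 ^ g` types** of `E`, if `g ≥ u`, the
  normal subfields of `E` are small (`SmallNormal`: `g` is odd, or all smooth parts of `g` are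
  small, that is, a divisor of `g` with all prime factors at most `y` is at most `√(g y ^ 3) / (1 +
  log g) ^ 3`, for all `y ≥ 2`, for instance if `g` is large and has a prime factor larger than `√g
  (1 + log g) ^ 3`, but also if `g = 4 p ^ 2` with a large prime number `p`; or the subfields of `E`
  that are normal over `ℚ` are contained in a subfield of degree at most `√g / (1 + log g) ^ 2`),
  and `q ≤ g` is at least the part of `g` composed of the primes 2 and 3 (or at least twice the
  number of the CM subfields of `E` of degree 4 or 6; `SmallPart`). In particular the property is
  true for almost all types of **all CM fields of degree `2 g` with `g` odd and prime to `3`**,
  without any condition on the Galois group or on the subfields; for at least 86 percent of all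
  types if `g` is odd and not a power of 3; and for at least 32 percent of all types of all fields
  with small normal subfields (take `q = g`).
* (`OddDegrees`) For **all CM fields of degree `2 g` with `g` odd**, `g ≥ u (n)`, without any
  condition on the Galois group or the subfields, it is true for **at least one half of all types**,
  and if all weights are one then for **at least two thirds of all types**.
* (`AllFields`) For **every CM field** `E`, of any degree `2 g`, without any condition on the Galois
  group or the subfields, and every `m`, the property is true for **all but a proportion of `g / (m
  + 1)` of all slope functions with denominator `m`**: they are `a (1 + D / m) / 2` with one of the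
  `(m + 1) ^ g` functions `D` with `D φ̄ = - D φ`, `|D φ| ≤ m` and `D φ` congruent to `m` modulo 2
  (`Box`); the weights are `M = |D|`, and `D ≥ 0` on the type.
* (`AlmostAllTypes`, `AlmostAllDegrees`) Let `q ^ k ≤ g` for all `q` with `q ^ 2 ∣ g`. Then for all
  CM fields of degree `2 g` it is false for at most `2 ^ g * C * n ^ 2 * g ^ (6 / k - 1/4 + ε)`
  types, `C = C (k, ε)`. At most `4 x ^ (1 - 1/k)` of the numbers `g ≤ x` do not have this property
  (`k ≥ 2`).

All this is proved more generally for finitely many pairwise independent fields `K i`; the
proportions of the types with the property are then multiplied (in the third
and the fourth part the bounds for the exceptions are added).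

**What was known.** The starting files prove that almost all types of a CM field have no relations
if it has few CM subfields, and this for all CM fields of degree `2 g` if `g` has a prime factor
larger than `g ^ (1 / 2 + δ)`. For the fields with many CM subfields of the other degrees (examples
are `g = p q` with two nearly equal prime numbers, and `g = p ^ k`) this was open; for the degrees
`2 r ^ k`, `r` prime, a theorem of this team gives the property for at least one half of all types,
by congruences (it is used here for `r = 3`). Some condition is necessary: if `E` is multiquadratic
and `M = 1` then nearly one half of all types is degenerate (`Pool.Agent.Q29.DP.multiquadratic`).

**From the special fibre to all varieties.** The standard conjecture of Hodge type modulo homological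
equivalence holds for all `Y` in `𝒞`, and so for all `X` which specialize to them
(`Pool.Agent.Results.MP_ffcd14_ag.TypicalFields`): the self-intersection of a primitive class `a ≠ 0`
on `X` is not zero. The conjecture `A` of Lefschetz type then implies that numerical and homological
equivalence coincide on `X`, and this gives the numerical form of the conjecture.

**The proof.** A multiplicative relation between the conjugates of the Weil numbers gives, by the
`p`-adic valuations, a relation between the translates of `e = ± M` for one of the types: `∑ n φ * e
(σ φ) = 0` for all automorphisms `σ` of `ℂ`, with `n φ̄ = - n φ`, `n ≠ 0`. So it remains to estimate
the number of the degenerate types: those for which `e` is orthogonal to a minimal Galois-stable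
space `S` of antisymmetric functions on the set of the complex embeddings of `E`. Let `G` be the
Galois group of the normal closure and `H` the stabilizer of an embedding, `K` the kernel of the
action of `G` on `S` and `F` the field of `H K`; so `S` comes from `F` and is a faithful
representation of the Galois group `G / K` of the normal closure of `F`. Let `c = e + d - h` where
`d` and `h` are the dimensions of `S` and of the part of `S` fixed by `H`, and `e` is the dimension
of the algebra of the endomorphisms of `S`. The spaces isomorphic to `S` form a component.

(A) The sum of `h d / e` over all components is at most `g`. A component with `c ≥ 3` contributes at
most `2 ^ g C n ^ 4 (h d / (e g)) (log g) ^ 21 / √g`; so these components together contribute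
little. For this the size of `F` must be eliminated from the estimate of the starting files; this is
done with their inequality for small denominators and for groups of order `g ^ (log g)`.

(B) The components with `c = 2` and dimension `d ≥ 3`: those with `d ≥ D` contribute at most `2 ^ g
64 log (4 D) / D` together. If `3 ≤ d < D` then by Minkowski `F` has bounded degree, and each
contributes `2 ^ g o (1 / g)`; this is the new analytic step. Let `p` be a prime number of the size
of a large multiple of `√g`. The spaces isomorphic to `S` have at most `2 ^ e p ^ (h - e)`
reductions `R` modulo `p`, and by Fourier analysis modulo `p` the number of the types orthogonal to
`R` is at most `2 ^ g p ^ (-d)` times the sum over the functions `u` in `R` of a product of cosines,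
which is at most a Gaussian function of `u`. A short `u ≠ 0` generates `R` (short integral functions
which are independent over `ℚ` are independent modulo `p`, by Gram determinants); so the sum over
all `R` of the sums over the `u ≠ 0` is at most one Gaussian sum, hence bounded, and altogether
there are at most `2 ^ g (2 ^ e p ^ (-2) + O (p ^ (-d)))` types.

(C) `c = d = 2`: then `F` has degree 4 or 6, there are at most as many of these components as CM
subfields of degree 4 or 6, and at most half of the part of `g` composed of 2 and 3; each
contributes at most `2 ^ g 1.351 / g`, by the theorem of Erdos on sums of weights with signs,
applied twice. If `g` is a power of 3, and for `OddDegrees`, these components are excluded by a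
congruence modulo 3: the lattice of the relations contains a function that is invariant modulo 3
under a Sylow 3-subgroup, which has two orbits on the embeddings.

(D) `c = 1`: then `F` is normal over `ℚ`, `d ^ 2 ≤ [F : ℚ] / 2`, and the component contributes at
most `2 ^ g C n (log g) ^ (3/2) √(d / g)`. If `g` is odd then `d = 1` (Frobenius and Schur) and
there is at most one. In general the sum of `d ^ 2` over those with `d < y` is at most the largest
divisor of `g` composed of primes `≤ y`; and over all of them at most the degree of a field which
contains all subfields normal over `ℚ`.

(E) For the bounds with a power saving the number of the components with `c ≤ 2` is estimated by the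
number of the classes of cyclic subgroups of `G / L`, `L` the intersection of their kernels, using
the theorem of Sylow; here the order of `G / L` is at most `2 g 2 ^ Ω(2 g)` because `H K / K` has
order at most two and is not central. Lemmas of this part were proved by helper24, helper38,
helper178, helper204, helper227, helper261 and helper275 of this team.

(G) For (`AllFields`) let `φ i` be the embeddings of a type. The functions `D` with relations are
zeros of the polynomial `det (D (σ j φ i))` of degree `g` in the `g` variables `D (φ i)`, for all
automorphisms `σ j` of `ℂ`; if `σ j` maps `φ j` to `φ 1` then it is not zero, since its value for
the function with the values `1` at `φ 1`, `-1` at its conjugate and `0` elsewhere is the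
determinant of the unit matrix. Then the lemma of Schwartz and Zippel gives the bound.
-/

set_option autoImplicit false

namespace Pool.Agent.Results.MP_c0b458_ag.TypicalFields

open NumberField Module Pool.Agent.H204R3.CM Pool.Agent.H977R3.CM Pool.Agent.TH170
  Pool.Agent.TH170.FW Pool.Agent.Q29.TE Pool.Agent.Q29.HT Pool.Agent.Q29.NH

open Pool.Agent.Q29.DP (notMem_degTypes_of_noRelations)

open Pool.Agent.Q29.BX (AllFields allFields)

/-- The property of the slope types `Φ i` with the weights `M i`: the numerical standard conjecture of
Hodge type holds for all abelian varieties which specialize to abelian varieties of these types, and
numerical and homological equivalence coincide on them. -/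
def Q : TypeProperty := fun _ _ ν _ _ K _ _ _ M Φ => NumPositiveForTypes ν K M Φ

/-- **The numerical standard conjecture of Hodge type for all abelian varieties in characteristic `p`
which specialize to abelian varieties of almost all slope types of typical CM fields.** -/
theorem result : MostTypes Q ∧ OddDegrees Q ∧ AllFields Q ∧ AlmostAllTypes Q ∧
    AlmostAllDegrees := by
  have h : WithoutRelations Q := by
    intro p _ ν I _ K _ _ _ M Φ hind hMc hΦ hno
    have hnd : ∀ i, Φ i ∉ degTypes (M i) := fun i => notMem_degTypes_of_noRelations (hno i)
    exact numPositiveForTypes_of (positiveForTypes_of K M Φ fun Y hY =>
      ⟨Y, GS.elementary_of_types hind hMc hΦ hnd hY,
        fun k => Or.inr ⟨k, RingHom.id _, 1, 1, one_pos, one_pos, rfl, rfl⟩⟩)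
  exact ⟨mostTypes h, oddDegrees h, allFields h, almostAllTypes h, almostAllDegrees⟩

end Pool.Agent.Results.MP_c0b458_ag.TypicalFields
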